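import Mathlib

namespace Pool.Agent.Results.MP_6f9abf_an.Holds

open Set Filter Topology MeasureTheory

variable {Ω : Type*} [MeasurableSpace Ω] (μ : Measure Ω) (𝕜 : Type*) [RCLike 𝕜]

open Classical in
/-- The class of the indicator of a measurable set. -/
noncomputable def ind (A : Set Ω) : Ω →ₘ[μ] 𝕜 :=
  if h : MeasurableSet A then AEEqFun.mk (A.indicator fun _ => 1)
    (aestronglyMeasurable_const.indicator h) else 0

/-- Countable measurable partitions. -/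
def IsPart (A : ℕ → Set Ω) : Prop :=
  (∀ n, MeasurableSet (A n)) ∧ Pairwise (Function.onFun Disjoint A) ∧ ⋃ n, A n = univ

variable {E : Type*} [AddCommGroup E] [DistribMulAction (Ω →ₘ[μ] 𝕜) E]

/-- `L⁰`-seminorms. -/
def IsSemi (p : E → Ω →ₘ[μ] ℝ) : Prop :=
  (∀ x, 0 ≤ p x) ∧ (∀ (ξ : Ω →ₘ[μ] 𝕜) x, ∀ᵐ ω ∂μ, p (ξ • x) ω = ‖ξ ω‖ * p x ω) ∧
    ∀ x y, p (x + y) ≤ p x + p y

/-- `y` is the concatenation of the sequence `x` along `A`. -/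
def IsGlue (A : ℕ → Set Ω) (x : ℕ → E) (y : E) : Prop :=
  ∀ n, ind μ 𝕜 (A n) • y = ind μ 𝕜 (A n) • x n

/-- The supremum of finitely many seminorms. -/
noncomputable def nQ (Q : Finset (E → Ω →ₘ[μ] ℝ)) (x : E) (ω : Ω) : ℝ :=
  Q.fold max 0 fun q => q x ω

/-- Continuity on `G` for the `(ε, λ)`-topology. -/
def ContP (P : Set (E → Ω →ₘ[μ] ℝ)) (G : Set E) (f : E → E) : Prop :=
  ∀ x0 ∈ G, ∀ Q : Finset (E → Ω →ₘ[μ] ℝ), ↑Q ⊆ P → ∀ ε l : ℝ, 0 < ε → 0 < l → l < 1 →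
    ∃ Q' : Finset (E → Ω →ₘ[μ] ℝ), ↑Q' ⊆ P ∧ ∃ ε' l' : ℝ, 0 < ε' ∧ 0 < l' ∧ l' < 1 ∧
      ∀ x ∈ G, 1 - l' < μ.real {ω | nQ μ Q' (x - x0) ω < ε'} →
        1 - l < μ.real {ω | nQ μ Q (f x - f x0) ω < ε}

/-- Continuity on `G` for the locally `L⁰`-convex topology. -/
def ContC (P : Set (E → Ω →ₘ[μ] ℝ)) (G : Set E) (f : E → E) : Prop :=
  ∀ x0 ∈ G, ∀ Q : Finset (E → Ω →ₘ[μ] ℝ), ↑Q ⊆ P → ∀ ε : Ω →ₘ[μ] ℝ, (∀ᵐ ω ∂μ, 0 < ε ω) →
    ∃ Q' : Finset (E → Ω →ₘ[μ] ℝ), ↑Q' ⊆ P ∧ ∃ δ : Ω →ₘ[μ] ℝ, (∀ᵐ ω ∂μ, 0 < δ ω) ∧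
      ∀ x ∈ G, (∀ᵐ ω ∂μ, nQ μ Q' (x - x0) ω < δ ω) → ∀ᵐ ω ∂μ, nQ μ Q (f x - f x0) ω < ε ω

variable {μ 𝕜}

lemma local_eq {Q : Finset (E → Ω →ₘ[μ] ℝ)} (hQ : ∀ q ∈ Q, IsSemi μ 𝕜 q) {A : Set Ω}
    (hA : MeasurableSet A) {u v : E} (h : ind μ 𝕜 A • u = ind μ 𝕜 A • v) (w : E) :
    ∀ᵐ ω ∂μ, ω ∈ A → nQ μ Q (u - w) ω = nQ μ Q (v - w) ω := by
  have h1 : ind μ 𝕜 A • (u - w) = ind μ 𝕜 A • (v - w) := by rw [smul_sub, smul_sub, h]
  have h2 : ind μ 𝕜 A =ᵐ[μ] A.indicator fun _ => 1 := by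
    rw [ind, dif_pos hA]
    exact AEEqFun.coeFn_mk _ _
  have h3 : ∀ᵐ ω ∂μ, ∀ q ∈ Q, ω ∈ A → q (u - w) ω = q (v - w) ω := by
    rw [eventually_all_finset]
    intro q hq
    filter_upwards [h2, (hQ q hq).2.1 (ind μ 𝕜 A) (u - w), (hQ q hq).2.1 (ind μ 𝕜 A) (v - w)]
      with ω a b c hω
    rw [h1, c, a, indicator_of_mem hω] at b
    simpa using b.symm
  filter_upwards [h3] with ω hω hA
  exact Finset.fold_congr fun q hq => hω q hq hA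

lemma nQ_zero {Q : Finset (E → Ω →ₘ[μ] ℝ)} (hQ : ∀ q ∈ Q, IsSemi μ 𝕜 q) :
    ∀ᵐ ω ∂μ, nQ μ Q (0 : E) ω ≤ 0 := by
  have h3 : ∀ᵐ ω ∂μ, ∀ q ∈ Q, q 0 ω ≤ 0 := by
    rw [eventually_all_finset]
    intro q hq
    filter_upwards [(hQ q hq).2.1 (0 : Ω →ₘ[μ] 𝕜) 0, AEEqFun.coeFn_zero (α := Ω) (μ := μ) (β := 𝕜)]
      with ω a b
    rw [smul_zero, b] at a
    rw [Pi.zero_apply, norm_zero, zero_mul] at a
    exact a.le
  filter_upwards [h3] with ω hω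
  exact (Finset.fold_max_le _).2 ⟨le_rfl, hω⟩

omit [AddCommGroup E] in
lemma nQ_meas (Q : Finset (E → Ω →ₘ[μ] ℝ)) (x : E) : Measurable (nQ μ Q x) := by
  classical
  induction Q using Finset.induction_on with
  | empty => exact measurable_const
  | insert q Q hq ih =>
    have : nQ μ (insert q Q) x = fun ω => max (q x ω) (nQ μ Q x ω) := by
      funext ω
      simp only [nQ, Finset.fold_insert hq]
    rw [this]
    exact (q x).measurable.max ih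

lemma part_of (S : ℕ → Set Ω) (hS : ∀ n, MeasurableSet (S n)) :
    ∃ A, IsPart A ∧ ∀ n, A n ∩ ⋃ m, S m ⊆ S n := by
  refine ⟨disjointed fun n => S n ∪ (⋃ m, S m)ᶜ, ⟨fun n => MeasurableSet.disjointed
    (fun n => (hS n).union (MeasurableSet.iUnion hS).compl) n, disjoint_disjointed _, ?_⟩, ?_⟩
  · rw [iUnion_disjointed, ← iUnion_union, union_compl_self]
  · rintro n ω ⟨h1, h2⟩
    exact (disjointed_subset _ n h1).resolve_right fun h => h h2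

lemma seq_cover [IsFiniteMeasure μ] {I : Type*} (i0 : I) (S : I → Set Ω)
    (hS : ∀ i, MeasurableSet (S i)) :
    ∃ j : ℕ → I, ∀ i, ∀ᵐ ω ∂μ, ω ∈ S i → ω ∈ ⋃ n, S (j n) := by
  obtain ⟨D, D1, D2, D3⟩ := Measure.exists_ae_subset_biUnion_countable μ (C := range S)
    (by rintro _ ⟨i, rfl⟩; exact hS i)
  obtain ⟨g, hg⟩ := (D2.insert (S i0)).exists_eq_range (insert_nonempty _ _)
  have : ∀ n, ∃ i, S i = g n := by
    intro n
    have : g n ∈ insert (S i0) D := hg ▸ mem_range_self n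
    rcases this with h | h
    · exact ⟨i0, h.symm⟩
    · exact D1 h
  choose j hj using this
  refine ⟨j, fun i => ?_⟩
  filter_upwards [D3 _ (mem_range_self i)] with ω hω h
  obtain ⟨t, ht, h'⟩ := hω h
  obtain ⟨n, rfl⟩ : t ∈ range g := hg ▸ mem_insert_of_mem _ ht
  exact mem_iUnion.2 ⟨n, (hj n).symm ▸ h'⟩

theorem result [IsProbabilityMeasure μ] (P : Set (E → Ω →ₘ[μ] ℝ)) (hP : ∀ p ∈ P, IsSemi μ 𝕜 p)
    (hsep : ∀ x, (∀ p ∈ P, p x = 0) → x = 0)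
    (hE : ∀ A, IsPart A → ∀ x : ℕ → E, ∃ y, IsGlue μ 𝕜 A x y)
    (hPs : ∀ A, IsPart A → ∀ Q : ℕ → Finset (E → Ω →ₘ[μ] ℝ), (∀ n, ↑(Q n) ⊆ P) →
      ∃ p ∈ P, ∀ x n, ∀ᵐ ω ∂μ, ω ∈ A n → p x ω = nQ μ (Q n) x ω)
    (G : Set E) (hG : ∀ A, IsPart A → ∀ x y, (∀ n, x n ∈ G) → IsGlue μ 𝕜 A x y → y ∈ G)
    (f : E → E) (hf : MapsTo f G G)
    (hfs : ∀ A, IsPart A → ∀ x y, (∀ n, x n ∈ G) → IsGlue μ 𝕜 A x y →
      IsGlue μ 𝕜 A (fun n => f (x n)) (f y))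
    (hc : ContP μ P G f) : ContC μ P G f := by
  classical
  intro x0 hx0 Q hQ ε hε
  have glue : ∀ A, IsPart A → ∀ z : ℕ → E, (∀ n, z n ∈ G) → ∃ y ∈ G,
      (∀ Q' : Finset (E → Ω →ₘ[μ] ℝ), ↑Q' ⊆ P → ∀ᵐ ω ∂μ, ∀ n, ω ∈ A n →
        nQ μ Q' (y - x0) ω = nQ μ Q' (z n - x0) ω) ∧
      ∀ᵐ ω ∂μ, ∀ n, ω ∈ A n → nQ μ Q (f y - f x0) ω = nQ μ Q (f (z n) - f x0) ω := by
    intro A hA z hz
    obtain ⟨y, hy⟩ := hE A hA z
    refine ⟨y, hG A hA z y hz hy, fun Q' hQ' => ae_all_iff.2 fun n => ?_, ae_all_iff.2 fun n => ?_⟩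
    · exact local_eq (fun q hq => hP q (hQ' hq)) (hA.1 n) (hy n) x0
    · exact local_eq (fun q hq => hP q (hQ hq)) (hA.1 n) (hfs A hA z y hz hy n) (f x0)
  have cov : ∀ A, IsPart A → ∀ ω : Ω, ∃ n, ω ∈ A n := fun A hA ω =>
    mem_iUnion.1 (hA.2.2 ▸ mem_univ ω)
  let B : E → Set Ω := fun x => {ω | ε ω ≤ nQ μ Q (f x - f x0) ω}
  have hB : ∀ x, MeasurableSet (B x) := fun x => measurableSet_le ε.measurable (nQ_meas _ _)
  let Adm : Finset (E → Ω →ₘ[μ] ℝ) → (Ω → ℝ) → Set E := fun Q' δ =>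
    {x | x ∈ G ∧ ∀ᵐ ω ∂μ, nQ μ Q' (x - x0) ω < δ ω}
  have z0 : ∀ Q' : Finset (E → Ω →ₘ[μ] ℝ), ↑Q' ⊆ P → ∀ᵐ ω ∂μ, nQ μ Q' (x0 - x0) ω ≤ 0 := by
    intro Q' hQ'
    rw [sub_self]
    exact nQ_zero fun q hq => hP q (hQ' hq)
  have maxB : ∀ Q' : Finset (E → Ω →ₘ[μ] ℝ), ↑Q' ⊆ P → ∀ e : ℝ, 0 < e →
      ∃ y ∈ Adm Q' fun _ => e, ∀ x ∈ Adm Q' fun _ => e, ∀ᵐ ω ∂μ, ω ∈ B x → ω ∈ B y := by
    intro Q' hQ' e he
    obtain ⟨j, hj⟩ := seq_cover (μ := μ) (I := Adm Q' fun _ => e)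
      ⟨x0, hx0, (z0 Q' hQ').mono fun ω h => h.trans_lt he⟩ (fun i => B i) fun i => hB i
    obtain ⟨A, hA, hA'⟩ := part_of (fun n => B (j n)) fun n => hB _
    obtain ⟨y, y1, y2, y3⟩ := glue A hA (fun n => j n) fun n => (j n).2.1
    refine ⟨y, ⟨y1, ?_⟩, fun x hx => ?_⟩
    · filter_upwards [y2 Q' hQ', ae_all_iff.2 fun n => (j n).2.2] with ω a b
      obtain ⟨n, hn⟩ := cov A hA ω
      rw [a n hn]
      exact b n
    · filter_upwards [y3, hj ⟨x, hx⟩] with ω a b h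
      obtain ⟨n, hn⟩ := cov A hA ω
      have := hA' n ⟨hn, b h⟩
      simp only [B, mem_ofPred_eq] at this ⊢
      rwa [a n hn]
  let I := {t : Set Ω × Finset (E → Ω →ₘ[μ] ℝ) × ℝ // MeasurableSet t.1 ∧ ↑t.2.1 ⊆ P ∧ 0 < t.2.2 ∧
    ∀ x ∈ Adm t.2.1 fun _ => t.2.2, ∀ᵐ ω ∂μ, ω ∈ t.1 → ω ∉ B x}
  obtain ⟨j, hj⟩ := seq_cover (μ := μ) (I := I)
    ⟨(∅, ∅, 1), MeasurableSet.empty, by simp, one_pos, by simp⟩ (fun i => i.1.1) fun i => i.2.1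
  set U := ⋃ n, (j n).1.1 with hU
  have hUm : MeasurableSet U := MeasurableSet.iUnion fun n => (j n).2.1
  have full : ∀ᵐ ω ∂μ, ω ∈ U := by
    have : ∀ k : ℕ, ∀ᵐ ω ∂μ, 1 / ((k : ℝ) + 1) ≤ ε ω → ω ∈ U := by
      intro k
      by_contra hne
      set C := {ω | ¬ (1 / ((k : ℝ) + 1) ≤ ε ω → ω ∈ U)} with hC
      have m0 : 0 < μ.real C := ENNReal.toReal_pos hne (measure_ne_top _ _)
      have m1 : μ.real C ≤ 1 := measureReal_le_one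
      obtain ⟨Q', q1, e, l, e0, l0, l1, h⟩ := hc x0 hx0 Q hQ (1 / ((k : ℝ) + 1)) (μ.real C / 2)
        (by positivity) (by linarith) (by linarith)
      obtain ⟨y, y1, y2⟩ := maxB Q' q1 e e0
      have h1 := h y y1.1 (by
        have : μ.real {ω | nQ μ Q' (y - x0) ω < e} = μ.real univ :=
          measureReal_congr (y1.2.mono fun ω h => propext ⟨fun _ => trivial, fun _ => h⟩)
        rw [this, probReal_univ]
        linarith)
      have h2 := hj ⟨((B y)ᶜ, Q', e), (hB y).compl, q1, e0, fun x hx =>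
        (y2 x hx).mono fun ω a b c => b (a c)⟩
      set W := {ω | nQ μ Q (f y - f x0) ω < 1 / ((k : ℝ) + 1)}
      have hW : MeasurableSet W := measurableSet_lt (nQ_meas _ _) measurable_const
      have h3 : μ.real C ≤ μ.real Wᶜ := by
        refine ENNReal.toReal_mono (measure_ne_top _ _) (measure_mono_ae ?_)
        filter_upwards [h2] with ω a b c
        have b' : ¬ (1 / ((k : ℝ) + 1) ≤ ε ω → ω ∈ U) := b
        refine b' fun d => a fun e => ?_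
        exact absurd (d.trans e) (not_le.2 c)
      rw [probReal_compl_eq_one_sub hW] at h3
      linarith
    filter_upwards [ae_all_iff.2 this, hε] with ω a b
    obtain ⟨k, hk⟩ := exists_nat_one_div_lt b
    exact a k hk.le
  obtain ⟨A, hA, hA'⟩ := part_of (fun n => (j n).1.1) fun n => (j n).2.1
  obtain ⟨p, hp, hp'⟩ := hPs A hA (fun n => (j n).1.2.1) fun n => (j n).2.2.1
  let d : Ω → ℝ := fun ω => (j (Nat.find (cov A hA ω))).1.2.2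
  have dm : Measurable d :=
    Measurable.find (f := fun n _ => (j n).1.2.2) (fun _ => measurable_const) hA.1 (cov A hA)
  have de : ∀ n, ∀ ω ∈ A n, d ω = (j n).1.2.2 := by
    intro n ω h
    have : Nat.find (cov A hA ω) = n := by
      by_contra hne
      exact Set.disjoint_left.1 (hA.2.1 hne) (Nat.find_spec (cov A hA ω)) h
    simp only [d, this]
  have dc := AEEqFun.coeFn_mk (μ := μ) d dm.aestronglyMeasurable
  refine ⟨{p}, by simpa using hp, AEEqFun.mk d dm.aestronglyMeasurable,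
    dc.mono fun ω h => h ▸ (j _).2.2.2.1, fun x hx h => ?_⟩
  have key : ∀ n, ∀ᵐ ω ∂μ, ω ∈ A n → ω ∈ (j n).1.1 → ω ∉ B x := by
    intro n
    obtain ⟨A2, hA2, hA2'⟩ := part_of (fun m => if m = 0 then A n else (A n)ᶜ) fun m => by
      split_ifs
      · exact hA.1 n
      · exact (hA.1 n).compl
    have hall : ∀ ω m, ω ∈ A2 m → ω ∈ if m = 0 then A n else (A n)ᶜ := by
      intro ω m hm
      refine hA2' m ⟨hm, ?_⟩
      by_cases h : ω ∈ A n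
      · exact mem_iUnion.2 ⟨0, by simpa using h⟩
      · exact mem_iUnion.2 ⟨1, by simpa using h⟩
    obtain ⟨y, y1, y2, y3⟩ := glue A2 hA2 (fun m => if m = 0 then x else x0) fun m => by
      split_ifs <;> assumption
    have ya : y ∈ Adm (j n).1.2.1 fun _ => (j n).1.2.2 := by
      refine ⟨y1, ?_⟩
      filter_upwards [y2 _ (j n).2.2.1, z0 _ (j n).2.2.1, hp' (x - x0) n, h, dc] with ω a b c e g
      obtain ⟨m, hm⟩ := cov A2 hA2 ω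
      have := hall ω m hm
      rw [a m hm]
      split_ifs at this ⊢
      · rw [← c this, ← de n ω this, ← g]
        exact ((Finset.fold_max_lt _).1 e).2 p (Finset.mem_singleton_self p)
      · exact b.trans_lt (j n).2.2.2.1
    filter_upwards [(j n).2.2.2.2 y ya, y3] with ω a b c e g
    obtain ⟨m, hm⟩ := cov A2 hA2 ω
    have := hall ω m hm
    have b' := b m hm
    split_ifs at this b'
    · refine a e ?_
      simp only [B, mem_ofPred_eq] at g ⊢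
      rwa [b']
    · exact this c
  filter_upwards [ae_all_iff.2 key, full] with ω a b
  obtain ⟨n, hn⟩ := cov A hA ω
  exact not_le.1 (a n hn (hA' n ⟨hn, b⟩))

end Pool.Agent.Results.MP_6f9abf_an.Holds
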